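import Pool.Agent.T6.H39.HS.Curves
import Pool.Agent.Results.MP_788af2_nt.RationalApproximations

/-!
# The ranks of the curves with a point of order 8 or 12 over the good approximations of a real number

Let `m` be `8` or `12`. The elliptic curves over `ℚ` with a rational point of order `m` are the curves
`E_t : y² = x (x² + (s² - 2 r) x + r²)`, where `t = u / v` is a rational number in lowest terms and
`s = 2 u²`, `r = (v² - u²)²` for `m = 8` and `s = 8 u³ v`, `r = (v² - u²)³ (v² + 3 u²)` for `m = 12`. By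
the starting files the average of a small power of `2 ^ rank` over these curves, ordered by height, is
bounded; this is an average over a large box of pairs `(u, v)` around the origin. We show more:

* the average of `(2 ^ rank) ^ (2 β)` is bounded over the coprime pairs in all the squares of side `X`
  with coordinates up to `X ^ L`, for every `L`;
* for almost every real number `α`, if `t` runs through the rational numbers with `|α - t| ≤ c / v²`, for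
  example through the convergents of the continued fraction of `α`, counted with the weight `1 / log v`, the
  averages of `(2 ^ rank) ^ β` and of the rank of `E_t` are bounded, the proportion of the `t` with
  `rank ≥ k` is at most a constant times `2 ^ (- β k)`, and `2 ^ rank ≤ (log v) ^ (1 / β)` for all but finitely
  many of these `t`.

So large ranks of curves with these torsion groups are rare also along these very sparse sequences of
parameters, on which no average by height can say anything.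
-/

set_option autoImplicit false

namespace Pool.Agent.Results.MP_9e6228_nt.MetricTorsion

open Finset Filter MeasureTheory

/-- the coefficient `s` -/
def s (m : ℕ) (u v : ℤ) : ℤ := if m = 8 then 2 * u ^ 2 else 8 * u ^ 3 * v

/-- the coefficient `r` -/
def r (m : ℕ) (u v : ℤ) : ℤ :=
  if m = 8 then (v ^ 2 - u ^ 2) ^ 2 else (v ^ 2 - u ^ 2) ^ 3 * (v ^ 2 + 3 * u ^ 2)

/-- the curve `y² = x (x² + (s² - 2 r) x + r²)` -/
def E (m : ℕ) (u v : ℤ) : WeierstrassCurve ℚ :=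
  ⟨0, (s m u v : ℚ) ^ 2 - 2 * (r m u v : ℚ), 0, (r m u v : ℚ) ^ 2, 0⟩

/-- the Mordell-Weil rank of the curve with the parameter `t` -/
noncomputable def rank (m : ℕ) (u v : ℤ) : ℕ := Module.finrank ℤ (E m u v).toAffine.Point

/-- The rational numbers `t` with denominator `2 ≤ v ≤ Q` and `|α - t| ≤ c / v²` for which `E_t` is an
elliptic curve of rank at least `k`. -/
def Good (m : ℕ) (α : ℝ) (c Q k : ℕ) : Set ℚ :=
  {t | (2 ≤ t.den ∧ t.den ≤ Q ∧ |α - t| ≤ c / (t.den : ℝ) ^ 2) ∧ (E m t.num t.den).Δ ≠ 0 ∧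
    k ≤ rank m t.num t.den}

/-! ### Proof -/

open Pool.Agent.T6.H39.HS
open Pool.Agent.X257.AE (Ap nd BoxAvg)

theorem E_eq (m : ℕ) (u v : ℤ) : E m u v = Cu (s m u v) (r m u v) := rfl

theorem delta (m : ℕ) (u v : ℤ) : (E m u v).Δ ≠ 0 ↔
    s m u v ≠ 0 ∧ r m u v ≠ 0 ∧ s m u v ^ 2 - 4 * r m u v ≠ 0 := by
  have h : (E m u v).Δ = ((16 * (r m u v ^ 4 * (s m u v ^ 2 * (s m u v ^ 2 - 4 * r m u v))) : ℤ) : ℚ) := by
    unfold WeierstrassCurve.Δ WeierstrassCurve.b₂ WeierstrassCurve.b₄ WeierstrassCurve.b₆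
      WeierstrassCurve.b₈ E
    push_cast
    ring
  rw [h, Int.cast_ne_zero]
  constructor
  · intro h1
    have h2 := right_ne_zero_of_mul h1
    have h3 := right_ne_zero_of_mul h2
    exact ⟨fun h4 => left_ne_zero_of_mul h3 (by rw [h4]; norm_num),
      fun h4 => left_ne_zero_of_mul h2 (by rw [h4]; norm_num), right_ne_zero_of_mul h3⟩
  · rintro ⟨h1, h2, h3⟩
    exact mul_ne_zero (by norm_num) (mul_ne_zero (pow_ne_zero 4 h2) (mul_ne_zero (pow_ne_zero 2 h1) h3))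

/-- points of order `m` -/
theorem pt {m : ℕ} (hm : m = 8 ∨ m = 12) (u v : ℤ) (h : (E m u v).Δ ≠ 0) :
    ∃ P : (E m u v).toAffine.Point, addOrderOf P = m := by
  rw [delta] at h
  obtain ⟨h1, h2, h3⟩ := h
  rcases hm with rfl | rfl
  · exact pt8 (f8 h1 h2 h3)
  · exact pt12 (f12 h1 h2 h3)

/-- lowest terms -/
theorem lowest {u v : ℤ} (hc : IsCoprime u v) (hv : v ≠ 0) :
    ∃ t : ℚ, (t.num = u ∧ (t.den : ℤ) = v) ∨ (t.num = -u ∧ (t.den : ℤ) = -v) := by
  rcases lt_or_gt_of_ne hv with h | h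
  · refine ⟨(-u : ℤ) / (-v : ℤ), Or.inr ?_⟩
    have h1 : Nat.Coprime (-u).natAbs (-v).natAbs := by
      rw [Int.natAbs_neg, Int.natAbs_neg]
      exact Int.isCoprime_iff_nat_coprime.1 hc
    exact ⟨Rat.num_div_eq_of_coprime (by omega) h1, Rat.den_div_eq_of_coprime (by omega) h1⟩
  · refine ⟨(u : ℤ) / (v : ℤ), Or.inl ?_⟩
    have h1 : Nat.Coprime u.natAbs v.natAbs := Int.isCoprime_iff_nat_coprime.1 hc
    exact ⟨Rat.num_div_eq_of_coprime h h1, Rat.den_div_eq_of_coprime h h1⟩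

theorem s_neg {m : ℕ} (u v : ℤ) : s m (-u) (-v) = s m u v := by
  unfold s
  split_ifs <;> ring

theorem r_neg {m : ℕ} (u v : ℤ) : r m (-u) (-v) = r m u v := by
  unfold r
  split_ifs <;> ring

/-- all the curves -/
theorem all {m : ℕ} (hm : m = 8 ∨ m = 12) {A B : ℤ} (hD : 4 * A ^ 3 + 27 * B ^ 2 ≠ 0)
    (hT : ∃ P : (⟨0, 0, 0, A, B⟩ : WeierstrassCurve ℚ).toAffine.Point, addOrderOf P = m) :
    ∃ t : ℚ, (E m t.num t.den).Δ ≠ 0 ∧ ∃ c e : ℚ, c ≠ 0 ∧
      ∀ x : ℚ, (c ^ 2 * x + e) ^ 3 + A * (c ^ 2 * x + e) + B =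
        c ^ 6 * (x ^ 3 + (E m t.num t.den).a₂ * x ^ 2 + (E m t.num t.den).a₄ * x) := by
  have key : ∃ u v : ℤ, IsCoprime u v ∧ v ≠ 0 ∧ (E m u v).Δ ≠ 0 ∧ ∃ c e : ℚ, c ≠ 0 ∧
      ∀ x : ℚ, (c ^ 2 * x + e) ^ 3 + A * (c ^ 2 * x + e) + B =
        c ^ 6 * (x ^ 3 + (E m u v).a₂ * x ^ 2 + (E m u v).a₄ * x) := by
    rcases hm with rfl | rfl
    · obtain ⟨u, v, hc, hF, c, e, h1, h2⟩ := all8 hD hT
      exact ⟨u, v, hc, hF 3, (delta _ _ _).2 (f8' hF), c, e, h1, h2⟩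
    · obtain ⟨u, v, hc, hF, c, e, h1, h2⟩ := all12 hD hT
      exact ⟨u, v, hc, hF 1, (delta _ _ _).2 (f12' hF), c, e, h1, h2⟩
  obtain ⟨u, v, hc, hv, hd, c, e, h1, h2⟩ := key
  obtain ⟨t, ht⟩ := lowest hc hv
  refine ⟨t, ?_⟩
  have he : E m t.num t.den = E m u v := by
    rcases ht with ⟨e1, e2⟩ | ⟨e1, e2⟩
    · rw [e1, e2]
    · rw [e1, e2]
      unfold E
      rw [s_neg, r_neg]
  rw [he]
  exact ⟨hd, c, e, h1, h2⟩

open Classical in
/-- the function -/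
noncomputable def FF (m : ℕ) (β : ℝ) (t : ℤ × ℤ) : ℝ :=
  if IsCoprime t.1 t.2 ∧ (E m t.1 t.2).Δ ≠ 0 then ((2 : ℝ) ^ rank m t.1 t.2) ^ (2 * β) else 0

theorem FF_nonneg (m : ℕ) (β : ℝ) (t : ℤ × ℤ) : 0 ≤ FF m β t := by
  unfold FF
  split_ifs <;> positivity

open Classical in
/-- short squares -/
theorem squares {m : ℕ} (hm : m = 8 ∨ m = 12) : ∃ β : ℝ, 0 < β ∧ ∀ L : ℕ, ∃ C : ℝ, 0 ≤ C ∧
    ∀ (X : ℕ) (U V : ℤ), 1 ≤ X → |U| ≤ (X : ℤ) ^ L → |V| ≤ (X : ℤ) ^ L →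
      ∑ t ∈ (Ioc U (U + X) ×ˢ Ioc V (V + X)).filter
        (fun t : ℤ × ℤ => IsCoprime t.1 t.2 ∧ (E m t.1 t.2).Δ ≠ 0),
        ((2 : ℝ) ^ rank m t.1 t.2) ^ (2 * β) ≤ C * (X : ℝ) ^ 2 := by
  have hpow : ∀ {X L : ℕ} {U : ℤ}, 1 ≤ X → |U| ≤ (X : ℤ) ^ L → U.natAbs ≤ X ^ (L + 1) := by
    intro X L U hX hU
    rw [Int.abs_eq_natAbs] at hU
    have h1 : U.natAbs ≤ X ^ L := by exact_mod_cast hU
    exact h1.trans (Nat.pow_le_pow_right hX (by omega))
  rcases hm with rfl | rfl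
  · obtain ⟨α, h1, -, h2⟩ := sq8
    refine ⟨α / 2, by positivity, fun L => ?_⟩
    obtain ⟨C, hC, h3⟩ := h2 (L + 1) (by omega)
    refine ⟨C, hC, fun X U V hX hU hV => ?_⟩
    refine le_trans (sum_le_sum fun t ht => ?_) (h3 X U V hX (hpow hX hU) (hpow hX hV) _
      (filter_subset _ _) ?_)
    · obtain ⟨-, a, b⟩ := mem_filter.1 ht
      rw [delta] at b
      have h4 := rk8 a (f8 b.1 b.2.1 b.2.2)
      rw [show 2 * (α / 2) = α by ring]
      exact Real.rpow_le_rpow (by positivity) (pow_le_pow_right₀ (by norm_num) h4) h1.le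
    · intro t ht
      obtain ⟨-, a, b⟩ := mem_filter.1 ht
      rw [delta] at b
      exact ⟨a, f8 b.1 b.2.1 b.2.2⟩
  · obtain ⟨α, h1, -, h2⟩ := sq12
    refine ⟨α / 2, by positivity, fun L => ?_⟩
    obtain ⟨C, hC, h3⟩ := h2 (L + 1) (by omega)
    refine ⟨C, hC, fun X U V hX hU hV => ?_⟩
    refine le_trans (sum_le_sum fun t ht => ?_) (h3 X U V hX (hpow hX hU) (hpow hX hV) _
      (filter_subset _ _) ?_)
    · obtain ⟨-, a, b⟩ := mem_filter.1 ht
      rw [delta] at b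
      have h4 := rk12 a (f12 b.1 b.2.1 b.2.2)
      rw [show 2 * (α / 2) = α by ring]
      exact Real.rpow_le_rpow (by positivity) (pow_le_pow_right₀ (by norm_num) h4) h1.le
    · intro t ht
      obtain ⟨-, a, b⟩ := mem_filter.1 ht
      rw [delta] at b
      exact ⟨a, f12 b.1 b.2.1 b.2.2⟩

theorem FF_nd {m : ℕ} {β : ℝ} {t : ℚ} (ht : (E m t.num t.den).Δ ≠ 0) :
    Real.sqrt (FF m β (nd t)) = ((2 : ℝ) ^ rank m t.num t.den) ^ β := by
  have h1 : FF m β (nd t) = ((2 : ℝ) ^ rank m t.num t.den) ^ (2 * β) := by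
    refine if_pos ⟨?_, ht⟩
    unfold nd
    rw [Int.isCoprime_iff_gcd_eq_one]
    exact t.reduced
  rw [h1, mul_comm 2 β, Real.rpow_mul (by positivity)]
  have h2 : (((2 : ℝ) ^ rank m t.num t.den) ^ β) ^ (2 : ℝ) = (((2 : ℝ) ^ rank m t.num t.den) ^ β) ^ 2 := by
    exact_mod_cast Real.rpow_natCast _ 2
  rw [h2, Real.sqrt_sq (by positivity)]

theorem sum_le {m : ℕ} {α β : ℝ} {c Q k : ℕ} {f : ℚ → ℝ} {a : ℝ} (ha : 0 ≤ a)
    (hf : ∀ t ∈ Good m α c Q k, f t ≤ a * ((2 : ℝ) ^ rank m t.num t.den) ^ β) :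
    ∑ᶠ t ∈ Good m α c Q k, f t / Real.log t.den ≤
      a * ∑ᶠ t ∈ Ap α c Q, Real.sqrt (FF m β (nd t)) / Real.log t.den := by
  classical
  have hA : (Ap α c Q).Finite :=
    Pool.Agent.Results.MP_788af2_nt.RationalApproximations.finite_approx α c Q
  have hG : (Good m α c Q k).Finite := hA.subset fun t ht => ht.1
  rw [finsum_mem_eq_finite_toFinset_sum _ hG, finsum_mem_eq_finite_toFinset_sum _ hA, mul_sum]
  refine (sum_le_sum (g := fun t : ℚ => a * (Real.sqrt (FF m β (nd t)) / Real.log t.den))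
    fun t ht => ?_).trans (sum_le_sum_of_subset_of_nonneg (fun t ht => ?_) fun t _ _ =>
      mul_nonneg ha (div_nonneg (Real.sqrt_nonneg _) (Real.log_natCast_nonneg _)))
  · have h1 := hG.mem_toFinset.1 ht
    rw [FF_nd h1.2.1, ← mul_div_assoc]
    exact div_le_div_of_nonneg_right (hf t h1) (Real.log_natCast_nonneg _)
  · exact hA.mem_toFinset.2 (hG.mem_toFinset.1 ht).1

theorem rank_le {n : ℕ} {β : ℝ} (hβ : 0 < β) : (n : ℝ) ≤ 2 / β * ((2 : ℝ) ^ n) ^ β := by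
  have h1 : (n : ℝ) * Real.log 2 ≤ ((2 : ℝ) ^ n) ^ β / β := by
    have h2 := Real.log_le_rpow_div (x := (2 : ℝ) ^ n) (by positivity) hβ
    rwa [Real.log_pow] at h2
  have h3 : (1 : ℝ) / 2 < Real.log 2 := by linarith [Real.log_two_gt_d9]
  have h4 : (n : ℝ) * (1 / 2) ≤ n * Real.log 2 :=
    mul_le_mul_of_nonneg_left h3.le (Nat.cast_nonneg n)
  have h5 : (n : ℝ) ≤ 2 * (((2 : ℝ) ^ n) ^ β / β) := by linarith
  refine h5.trans (le_of_eq ?_)
  ring

open Classical in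
/-- **Theorem.** Let `m` be `8` or `12` and let `E_t`, `t = u / v` in lowest terms, be the curve
`y² = x (x² + (s² - 2 r) x + r²)` with the forms `s = s(u, v)`, `r = r(u, v)` above.

(1) If `E_t` is an elliptic curve it has a rational point of order `m`.

(2) Every elliptic curve `y² = x³ + A x + B` (`A`, `B` integers) with a rational point of order `m` is
isomorphic to some `E_t`, by a substitution `x ↦ c² x + e`, `y ↦ c³ y`.

There is `β > 0` with the following properties.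

(3) For every `L` there is `C` such that for all squares `(U, U + X] × (V, V + X]` with
`|U|, |V| ≤ X ^ L` the sum of `(2 ^ rank) ^ (2 β)` over the coprime pairs `(u, v)` in the square for which
the curve is an elliptic curve is at most `C X²`.

(4) There are numbers `C(c, K)` such that for almost every real `α` and all natural numbers `c`, if `t`
runs through the rational numbers with `|α - t| ≤ c / v²` and `2 ≤ v ≤ Q` for which `E_t` is an elliptic
curve: for all large `Q` the sums of `(2 ^ rank) ^ β / log v` and of `rank / log v` are at most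
`C(c, ⌊α⌋) log log Q`; for every `k` and all large `Q` the sum of `1 / log v` over the `t` with `rank ≥ k`
is at most `C(c, ⌊α⌋) / 2 ^ (β k) * log log Q`; and `2 ^ rank ≤ (log v) ^ (1 / β)` for all these `t` with large
`v`. -/
theorem result (m : ℕ) (hm : m = 8 ∨ m = 12) :
    (∀ u v : ℤ, (E m u v).Δ ≠ 0 → ∃ P : (E m u v).toAffine.Point, addOrderOf P = m) ∧
    (∀ A B : ℤ, 4 * A ^ 3 + 27 * B ^ 2 ≠ 0 →
      (∃ P : (⟨0, 0, 0, A, B⟩ : WeierstrassCurve ℚ).toAffine.Point, addOrderOf P = m) →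
      ∃ t : ℚ, (E m t.num t.den).Δ ≠ 0 ∧ ∃ c e : ℚ, c ≠ 0 ∧
        ∀ x : ℚ, (c ^ 2 * x + e) ^ 3 + A * (c ^ 2 * x + e) + B =
          c ^ 6 * (x ^ 3 + (E m t.num t.den).a₂ * x ^ 2 + (E m t.num t.den).a₄ * x)) ∧
    ∃ β : ℝ, 0 < β ∧
      (∀ L : ℕ, ∃ C : ℝ, ∀ (X : ℕ) (U V : ℤ), 1 ≤ X → |U| ≤ (X : ℤ) ^ L → |V| ≤ (X : ℤ) ^ L →
        ∑ t ∈ (Ioc U (U + X) ×ˢ Ioc V (V + X)).filter
          (fun t : ℤ × ℤ => IsCoprime t.1 t.2 ∧ (E m t.1 t.2).Δ ≠ 0),
          ((2 : ℝ) ^ rank m t.1 t.2) ^ (2 * β) ≤ C * (X : ℝ) ^ 2) ∧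
      ∃ C : ℕ → ℤ → ℝ, ∀ᵐ α : ℝ, ∀ c : ℕ,
        (∀ᶠ Q : ℕ in atTop, ∑ᶠ t ∈ Good m α c Q 0,
          ((2 : ℝ) ^ rank m t.num t.den) ^ β / Real.log t.den ≤ C c ⌊α⌋ * Real.log (Real.log Q)) ∧
        (∀ᶠ Q : ℕ in atTop, ∑ᶠ t ∈ Good m α c Q 0,
          (rank m t.num t.den : ℝ) / Real.log t.den ≤ C c ⌊α⌋ * Real.log (Real.log Q)) ∧
        (∀ k : ℕ, ∀ᶠ Q : ℕ in atTop, ∑ᶠ t ∈ Good m α c Q k, 1 / Real.log t.den ≤
          C c ⌊α⌋ / (2 : ℝ) ^ (β * k) * Real.log (Real.log Q)) ∧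
        ∃ Q : ℕ, ∀ t : ℚ, Q ≤ t.den → |α - t| ≤ c / (t.den : ℝ) ^ 2 → (E m t.num t.den).Δ ≠ 0 →
          (2 : ℝ) ^ rank m t.num t.den ≤ (Real.log t.den) ^ (1 / β) := by
  refine ⟨pt hm, fun A B hD hT => all hm hD hT, ?_⟩
  obtain ⟨β, hβ, hsq⟩ := squares hm
  refine ⟨β, hβ, fun L => ?_, ?_⟩
  · obtain ⟨C, -, hC⟩ := hsq L
    exact ⟨C, hC⟩
  have hbox : ∃ p : ℝ, 0 ≤ p ∧ BoxAvg (FF m β) p 1 := by
    obtain ⟨C, hC0, hC⟩ := hsq 4
    refine ⟨C, hC0, fun X U V hX hU hV => ?_⟩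
    refine le_trans (le_of_eq ?_) (hC X U V hX hU hV)
    rw [sum_filter]
    rfl
  obtain ⟨p, hp, hB⟩ := hbox
  choose C hC0 hC using fun (c : ℕ) (K : ℤ) =>
    Pool.Agent.X257.AE.ae_ap (FF_nonneg m β) hp hB K c
  refine ⟨fun c K => (1 + 2 / β) * C c K, ?_⟩
  rw [ae_all_iff]
  intro c
  have h := ae_all_iff.2 (fun K : ℤ => hC c K)
  filter_upwards [h] with α hα
  obtain ⟨h1, h2⟩ := hα ⌊α⌋ ⟨Int.floor_le α, Int.lt_floor_add_one α⟩
  have hll : ∀ᶠ Q : ℕ in atTop, 0 ≤ Real.log (Real.log (Q : ℝ)) :=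
    (Real.tendsto_log_atTop.comp
      (Real.tendsto_log_atTop.comp tendsto_natCast_atTop_atTop)).eventually_ge_atTop 0
  have hC1 := hC0 c ⌊α⌋
  have hβ2 : 0 < 2 / β := by positivity
  have hC2 : C c ⌊α⌋ ≤ (1 + 2 / β) * C c ⌊α⌋ := by nlinarith
  have hC3 : 2 / β * C c ⌊α⌋ ≤ (1 + 2 / β) * C c ⌊α⌋ := by nlinarith
  refine ⟨?_, ?_, fun k => ?_, ?_⟩
  · filter_upwards [h1, hll] with Q hQ hQ0
    refine (sum_le (β := β) zero_le_one fun t _ => by rw [one_mul]).trans ?_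
    rw [one_mul]
    exact hQ.trans (mul_le_mul_of_nonneg_right hC2 hQ0)
  · filter_upwards [h1, hll] with Q hQ hQ0
    refine (sum_le (β := β) hβ2.le fun t _ => rank_le hβ).trans ?_
    refine (mul_le_mul_of_nonneg_left hQ hβ2.le).trans ?_
    rw [← mul_assoc]
    exact mul_le_mul_of_nonneg_right hC3 hQ0
  · filter_upwards [h1, hll] with Q hQ hQ0
    have hk : (0 : ℝ) < (2 : ℝ) ^ (β * k) := by positivity
    refine (sum_le (β := β) (a := 1 / (2 : ℝ) ^ (β * k)) (by positivity) fun t ht => ?_).trans ?_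
    · rw [one_div, inv_mul_eq_div, le_div_iff₀ hk, one_mul]
      have h3 : (2 : ℝ) ^ (β * k) = ((2 : ℝ) ^ k) ^ β := by
        rw [mul_comm, Real.rpow_mul (by norm_num), Real.rpow_natCast]
      rw [h3]
      exact Real.rpow_le_rpow (by positivity) (pow_le_pow_right₀ (by norm_num) ht.2.2) hβ.le
    · have h4 : 1 / (2 : ℝ) ^ (β * k) * (C c ⌊α⌋ * Real.log (Real.log Q)) ≤
          1 / (2 : ℝ) ^ (β * k) * ((1 + 2 / β) * C c ⌊α⌋ * Real.log (Real.log Q)) :=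
        mul_le_mul_of_nonneg_left (mul_le_mul_of_nonneg_right hC2 hQ0) (by positivity)
      refine (mul_le_mul_of_nonneg_left hQ (by positivity)).trans (h4.trans (le_of_eq ?_))
      ring
  · obtain ⟨Q, hQ⟩ := h2 1 one_pos
    refine ⟨Q + 1, fun t ht h3 h4 => ?_⟩
    have h5 := hQ t (by omega) h3
    have hlog : 0 ≤ Real.log t.den := Real.log_natCast_nonneg _
    have h6 : ((2 : ℝ) ^ rank m t.num t.den) ^ β ≤ Real.log t.den := by
      rw [← FF_nd h4]
      have h7 : (Real.log t.den) ^ ((1 : ℝ) + 1) = (Real.log t.den) ^ 2 := by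
        rw [show (1 : ℝ) + 1 = ((2 : ℕ) : ℝ) by norm_num, Real.rpow_natCast]
      rw [h7] at h5
      have h8 := Real.sqrt_le_sqrt h5
      rwa [Real.sqrt_sq hlog] at h8
    have h9 := Real.rpow_le_rpow (by positivity) h6 (by positivity : 0 ≤ 1 / β)
    rwa [← Real.rpow_mul (by positivity), mul_one_div_cancel hβ.ne', Real.rpow_one] at h9

end Pool.Agent.Results.MP_9e6228_nt.MetricTorsion
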