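import Mathlib
import Pool.Agent.T6.H30.UC.Apx
import Pool.Agent.T6.H30.UC.Uni

/-!
# The ranks of the curves with a subgroup `Z/2 x Z/4` over the good approximations of a real number

The elliptic curves over `ℚ` with a subgroup `Z/2 x Z/4` of rational points are the smooth fibres of the
universal family `y² = x (x + u²) (x + v²)`, `t = u / v` in lowest terms. More generally we consider
the families `y² = x (x + F_0²) (x + F_1²)`, where the binary forms `F_0`, `F_1` and
`F_2 = F_1² - F_0²` are products of powers of linear forms; the exponents in `F_2` are odd, `F_2`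
contains at most half of all the `m` linear forms, and `F_0`, `F_1` contain less than half of them.
For the universal family the linear forms are `u`, `v`, and `v - u`, `v + u` in `F_2`, half of them.

For almost every real number `α` we consider, for ALL these families, the fibres over the rational
numbers `t = u / v` with `|α - t| ≤ c / v²`, in particular over all the convergents of the continued
fraction of `α`; these `t` are counted with the weight `1 / log v`, the sum of the weights of the
convergents with `v ≤ Q` is of the order `log log Q`. Let `N (t)` be the sum of the rank of the fibre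
and of the corank of the 2-primary part of its Tate-Shafarevich group. We show: the upper density of
the `t` with `N (t) ≥ r` decays faster than any exponential `A ^ (-r)`; if `h (v)` tends to infinity
then `N (t) ≤ h (v)` except for a set of density zero; the averages of `A ^ N (t)` are bounded if a set
of density zero is omitted.

In the expansion of the moments of the 2-Selmer groups there are *critical* unlinked sets of indices if
`F_2` contains half of the linear forms. They are treated as in `TorsionTwoFourTails`: the constants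
`- F_0 ²` at the zeros of `F_2` are not squares, and the sum over the assignments of the primes
`p ≡ 3` modulo `4` to the indices is a Gauss sum. The helper files `Pool/Agent/T6/H30/UC` prove
this for all families with full 2-torsion with rational singular fibres and `2 n_k ≤ m`, in squares far
away from the origin; the law of large numbers for the good approximations is from `X257.AE`.
-/

set_option autoImplicit false

namespace Pool.Agent.Results.MP_9e6228_nt.MetricTwoFour

open Finset Filter MeasureTheory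
open Pool.Agent.Results.MP_788af2_nt.RationalApproximations (E Approx)
open Pool.Agent.Results.MP_6cf96a_nt.RankTailsInShortSquares (rank corank)

/-- The data of a family: `m` linear forms `l j = (α, β)`, which stands for `α u + β v`, the class
`cls j` of `l j`, the exponents `e j`, and integers `a k` (`k = 0, 1, 2`). -/
structure Family where
  /-- number of linear forms -/
  m : ℕ
  /-- the classes of the linear forms -/
  cls : Fin m → Fin 3
  /-- the linear forms -/
  l : Fin m → ℤ × ℤ
  /-- the exponents -/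
  e : Fin m → ℕ
  /-- constants -/
  a : Fin 3 → ℤ

namespace Family

/-- the value at `(u, v)` of the binary form `F_k = a_k ∏ (l j) ^ (e j)`, the product over the `j` of
the class `k` -/
def F (S : Family) (k : Fin 3) (u v : ℤ) : ℤ :=
  S.a k * ∏ j with S.cls j = k, ((S.l j).1 * u + (S.l j).2 * v) ^ S.e j

/-- the number of the linear forms of the class `k` -/
def n (S : Family) (k : Fin 3) : ℕ := (univ.filter (fun j => S.cls j = k)).card

/-- The conditions: the `a k` are not zero, the exponents are positive, those of the class `2` are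
odd, the linear forms are pairwise non-proportional, `F_1² - F_0² = F_2`; all the classes are
nonempty, the number of the forms of the class `2` is even and at most half of the number of all the
forms, the classes `0` and `1` contain less than half of them. -/
structure Ok (S : Family) : Prop where
  a_ne : ∀ k, S.a k ≠ 0
  e_pos : ∀ j, 0 < S.e j
  odd : ∀ j, S.cls j = 2 → Odd (S.e j)
  not_prop : ∀ i j, i ≠ j → (S.l i).1 * (S.l j).2 ≠ (S.l j).1 * (S.l i).2
  sub : ∀ u v : ℤ, S.F 1 u v ^ 2 - S.F 0 u v ^ 2 = S.F 2 u v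
  pos : ∀ k, 1 ≤ S.n k
  even : Even (S.n 2)
  le : 2 * S.n 2 ≤ S.m
  lt : ∀ k, k ≠ 2 → 2 * S.n k < S.m

/-- the fibre `y² = x (x + F_0 (u, v)²) (x + F_1 (u, v)²)` at `t = u / v`, in lowest terms -/
def curve (S : Family) (t : ℚ) : WeierstrassCurve ℚ :=
  E (-S.F 0 t.num t.den ^ 2) (-S.F 1 t.num t.den ^ 2)

/-- the fibre at `t` is an elliptic curve -/
def Smooth (S : Family) (t : ℚ) : Prop := ∀ k, S.F k t.num t.den ≠ 0

/-- the sum of the Mordell-Weil rank of the fibre at `t` and of the corank of the 2-primary part of its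
Tate-Shafarevich group -/
noncomputable def N (S : Family) (t : ℚ) : ℕ := rank (S.curve t) + corank (S.curve t)

end Family

/-- The rational numbers `t = u / v` of `X` with `2 ≤ v ≤ Q` and `|α - t| ≤ c / v²` at which the fibre
is an elliptic curve. -/
def Good (S : Family) (α : ℝ) (c Q : ℕ) (X : Set ℚ) : Set ℚ :=
  {t | t ∈ Approx α c Q ∧ S.Smooth t ∧ t ∈ X}

/-- The family `y² = x (x + u²) (x + v²)`: the linear forms are `u`, `v`, `v - u`, `v + u`, and
`F_0 = u`, `F_1 = v`, `F_2 = (v - u) (v + u)`. -/
def universal : Family where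
  m := 4
  cls := ![0, 1, 2, 2]
  l := ![(1, 0), (0, 1), (-1, 1), (1, 1)]
  e := ![1, 1, 1, 1]
  a := ![1, 1, 1]

/-- the curve `y² = x³ + A x + B` -/
def short (A B : ℤ) : WeierstrassCurve ℚ := ⟨0, 0, 0, (A : ℚ), (B : ℚ)⟩

/-- `Z/2 x Z/4` embeds in the group of the rational points of `W` -/
def HasTwoFour (W : WeierstrassCurve ℚ) : Prop :=
  ∃ f : ZMod 2 × ZMod 4 →+ W.toAffine.Point, Function.Injective f

/-! ### Proof: reduction to the general families -/

open Pool.Agent.T6.H30.UC

/-- the family as a general family -/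
def gen (S : Family) : SF.Family where
  m := S.m
  cls := S.cls
  l := S.l
  e := fun j => if S.cls j = 2 then S.e j else 2 * S.e j
  a := fun k => if k = 2 then S.a 2 else -S.a k ^ 2

lemma gen_F (S : Family) {k : Fin 3} (hk : k ≠ 2) (u v : ℤ) : (gen S).F k u v = -S.F k u v ^ 2 := by
  unfold SF.Family.F Family.F gen
  dsimp only
  rw [if_neg hk, mul_pow, ← prod_pow, neg_mul]
  congr 2
  apply prod_congr rfl
  intro j hj
  have h1 : S.cls j = k := (mem_filter.1 hj).2
  have h2 : S.cls j ≠ 2 := by rw [h1]; exact hk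
  rw [if_neg h2, ← pow_mul, mul_comm (S.e j) 2]

lemma gen_F2 (S : Family) (u v : ℤ) : (gen S).F 2 u v = S.F 2 u v := by
  unfold SF.Family.F Family.F gen
  dsimp only
  rw [if_pos rfl]
  congr 1
  apply prod_congr rfl
  intro j hj
  have h1 : S.cls j = 2 := (mem_filter.1 hj).2
  rw [if_pos h1]

lemma not_sq {x : ℤ} (hx : x ≠ 0) : ¬ IsSquare (-x ^ 2) := by
  rintro ⟨y, hy⟩
  have h1 : 0 < x ^ 2 := by positivity
  nlinarith [mul_self_nonneg y]

/-- the value of `F_k` at the zero of a linear form of another class -/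
lemma val_ne {S : Family} (hS : S.Ok) (j : Fin S.m) {k : Fin 3} (hk : S.cls j ≠ k) :
    S.F k (-(S.l j).2) (S.l j).1 ≠ 0 := by
  unfold Family.F
  refine mul_ne_zero (hS.a_ne k) (prod_ne_zero_iff.2 fun i hi => pow_ne_zero _ ?_)
  have h1 : S.cls i = k := (mem_filter.1 hi).2
  have h2 : i ≠ j := by
    rintro rfl
    exact hk h1
  have h3 := hS.not_prop i j h2
  intro h4
  apply h3
  linarith

lemma gen_ok {S : Family} (hS : S.Ok) : (gen S).Ok where
  a_ne := by
    intro k
    change (if k = 2 then S.a 2 else -S.a k ^ 2) ≠ 0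
    split_ifs
    · exact hS.a_ne 2
    · exact neg_ne_zero.2 (pow_ne_zero 2 (hS.a_ne k))
  e_pos := by
    intro j
    change 0 < (if S.cls j = 2 then S.e j else 2 * S.e j)
    have := hS.e_pos j
    split_ifs
    · exact this
    · omega
  not_prop := hS.not_prop
  sub := by
    intro u v
    rw [gen_F S (by decide), gen_F S (by decide), gen_F2, ← hS.sub]
    ring
  even := by
    intro k
    change Even (∑ j with S.cls j = k, (if S.cls j = 2 then S.e j else 2 * S.e j))
    by_cases hk : k = 2
    · subst hk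
      rw [even_sum_iff_even_card_odd]
      have h1 : (univ.filter (fun j => S.cls j = 2)).filter
          (fun j => Odd (if S.cls j = 2 then S.e j else 2 * S.e j)) =
          univ.filter (fun j => S.cls j = 2) := by
        apply filter_true_of_mem
        intro j hj
        have h2 : S.cls j = 2 := (mem_filter.1 hj).2
        rw [if_pos h2]
        exact hS.odd j h2
      rw [h1]
      exact hS.even
    · apply even_sum
      intro j hj
      have h1 : S.cls j = k := (mem_filter.1 hj).2
      rw [if_neg (by rw [h1]; exact hk)]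
      exact even_two_mul _
  par := by
    intro j
    by_cases h2 : S.cls j = 2
    · left
      change Odd (if S.cls j = 2 then S.e j else 2 * S.e j)
      rw [if_pos h2]
      exact hS.odd j h2
    · right
      unfold SF.Family.node
      change IsSquare (if S.cls j = 0 then -(gen S).F 1 (-(S.l j).2) (S.l j).1
        else if S.cls j = 1 then -(gen S).F 0 (-(S.l j).2) (S.l j).1
        else (gen S).F 0 (-(S.l j).2) (S.l j).1)
      rw [gen_F S (by decide), gen_F S (by decide), neg_neg, neg_neg]
      split_ifs with h3 h4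
      · exact ⟨_, sq _⟩
      · exact ⟨_, sq _⟩
      · exfalso
        generalize S.cls j = c at h2 h3 h4
        revert c
        decide
  bal := by
    intro k
    change 1 ≤ S.n k ∧ 2 * S.n k ≤ S.m
    refine ⟨hS.pos k, ?_⟩
    by_cases hk : k = 2
    · rw [hk]
      exact hS.le
    · exact (hS.lt k hk).le
  crit := by
    intro k hk
    have hk' : 2 * S.n k = S.m := hk
    have h2 : k = 2 := by
      by_contra h
      have := hS.lt k h
      omega
    subst h2
    have h3 : 0 < (univ.filter (fun j => S.cls j = 2)).card := hS.pos 2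
    obtain ⟨j, hj⟩ := card_pos.1 h3
    have h4 : S.cls j = 2 := (mem_filter.1 hj).2
    refine ⟨j, h4, ?_⟩
    unfold SF.Family.node
    change ¬ IsSquare (if S.cls j = 0 then -(gen S).F 1 (-(S.l j).2) (S.l j).1
      else if S.cls j = 1 then -(gen S).F 0 (-(S.l j).2) (S.l j).1
      else (gen S).F 0 (-(S.l j).2) (S.l j).1)
    rw [if_neg (by rw [h4]; decide), if_neg (by rw [h4]; decide), gen_F S (by decide)]
    exact not_sq (val_ne hS j (by rw [h4]; decide))

lemma gen_curve (S : Family) (t : ℚ) : (gen S).curve (SF.pair t) = S.curve t := by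
  unfold SF.Family.curve Family.curve SF.pair
  rw [gen_F S (by decide), gen_F S (by decide)]

lemma gen_N (S : Family) (t : ℚ) : (gen S).N (SF.pair t) = S.N t := by
  unfold SF.Family.N Family.N
  rw [gen_curve]

lemma gen_smooth (S : Family) (t : ℚ) : (gen S).Smooth (SF.pair t) ↔ S.Smooth t := by
  unfold SF.Family.Smooth Family.Smooth SF.pair
  constructor
  · intro h k hk
    apply h k
    by_cases h2 : k = 2
    · subst h2
      rw [gen_F2]
      exact hk
    · rw [gen_F S h2]
      dsimp only
      rw [hk]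
      norm_num
  · intro h k hk
    apply h k
    by_cases h2 : k = 2
    · subst h2
      rw [gen_F2] at hk
      exact hk
    · rw [gen_F S h2] at hk
      exact pow_eq_zero_iff (by norm_num) |>.1 (neg_eq_zero.1 hk)

lemma gen_good (S : Family) (α : ℝ) (c Q : ℕ) (X : Set ℚ) :
    SF.Good (gen S) α c Q X = Good S α c Q X := by
  unfold SF.Good Good
  ext t
  rw [Set.mem_ofPred_eq, Set.mem_ofPred_eq, gen_smooth]

theorem approximations : ∃ (r₀ : Family → ℕ → ℤ → ℕ → ℕ) (C : Family → ℕ → ℤ → ℕ → ℝ)
    (Z : Family → ℕ → Set ℚ), ∀ᵐ α : ℝ, ∀ S : Family, S.Ok → ∀ c : ℕ,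
    (∀ A : ℕ, 1 ≤ A → ∀ r : ℕ, r₀ S c ⌊α⌋ A ≤ r → ∀ᶠ Q : ℕ in atTop,
      ∑ᶠ t ∈ Good S α c Q {t | r ≤ S.N t}, 1 / Real.log t.den ≤
        Real.log (Real.log Q) / (A : ℝ) ^ r) ∧
    (∀ h : ℕ → ℝ, Tendsto h atTop atTop → ∀ ε : ℝ, 0 < ε → ∀ᶠ Q : ℕ in atTop,
      ∑ᶠ t ∈ Good S α c Q {t | h t.den < S.N t}, 1 / Real.log t.den ≤
        ε * Real.log (Real.log Q)) ∧
    ∀ A : ℕ, 1 ≤ A →
      (∀ ε : ℝ, 0 < ε → ∀ᶠ Q : ℕ in atTop,
        ∑ᶠ t ∈ Good S α c Q (Z S A), 1 / Real.log t.den ≤ ε * Real.log (Real.log Q)) ∧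
      ∀ᶠ Q : ℕ in atTop, ∑ᶠ t ∈ Good S α c Q (Z S A)ᶜ, (A : ℝ) ^ S.N t / Real.log t.den ≤
        C S c ⌊α⌋ A * Real.log (Real.log Q) := by
  obtain ⟨r₀, C, Z, h⟩ := SF.approximations
  refine ⟨fun S => r₀ (gen S), fun S => C (gen S), fun S => Z (gen S), ?_⟩
  filter_upwards [h] with α hα S hS c
  have h1 := hα (gen S) (gen_ok hS) c
  simp only [gen_good, gen_N] at h1
  exact h1

/-! ### Proof: the torsion -/

lemma curve_eq (S : Family) (t : ℚ) : S.curve t = E4 (S.F 0 t.num t.den) (S.F 1 t.num t.den) := by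
  unfold Family.curve Pool.Agent.Results.MP_788af2_nt.RationalApproximations.E E4
  push_cast
  congr 1 <;> ring

theorem torsion {S : Family} (hS : S.Ok) {t : ℚ} (ht : S.Smooth t) : HasTwoFour (S.curve t) := by
  have h0 := ht 0
  have h1 := ht 1
  have h2 := ht 2
  rw [← hS.sub] at h2
  have e0 : ((S.F 0 t.num t.den : ℤ) : ℚ) ≠ 0 := by exact_mod_cast h0
  have e1 : ((S.F 1 t.num t.den : ℤ) : ℚ) ≠ 0 := by exact_mod_cast h1
  unfold HasTwoFour
  rw [curve_eq]
  refine Pool.Agent.W307.RT.tors_iff.1 (e4_hasT e0 e1 ?_ ?_)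
  · intro h
    apply h2
    have h' : S.F 0 t.num t.den + S.F 1 t.num t.den = 0 := by exact_mod_cast h
    have : S.F 1 t.num t.den = -S.F 0 t.num t.den := by linarith
    rw [this]
    ring
  · intro h
    apply h2
    have h' : S.F 0 t.num t.den - S.F 1 t.num t.den = 0 := by exact_mod_cast h
    have : S.F 1 t.num t.den = S.F 0 t.num t.den := by linarith
    rw [this]
    ring

/-! ### Proof: the universal family -/

lemma un_F (k : Fin 3) (u v : ℤ) : universal.F k u v = (![1, 1, 1] : Fin 3 → ℤ) k *
    ∏ j : Fin 4 with (![0, 1, 2, 2] : Fin 4 → Fin 3) j = k,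
      (((![(1, 0), (0, 1), (-1, 1), (1, 1)] : Fin 4 → ℤ × ℤ) j).1 * u +
        ((![(1, 0), (0, 1), (-1, 1), (1, 1)] : Fin 4 → ℤ × ℤ) j).2 * v) ^
        (![1, 1, 1, 1] : Fin 4 → ℕ) j := rfl

lemma un_zero (u v : ℤ) : universal.F 0 u v = u := by
  rw [un_F, prod_filter, Fin.prod_univ_four]
  simp

lemma un_one (u v : ℤ) : universal.F 1 u v = v := by
  rw [un_F, prod_filter, Fin.prod_univ_four]
  simp

lemma un_two (u v : ℤ) : universal.F 2 u v = (v - u) * (v + u) := by
  rw [un_F, prod_filter, Fin.prod_univ_four]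
  simp [-mul_eq_mul_left_iff, -mul_eq_mul_right_iff]
  ring

lemma un_n (k : Fin 3) : universal.n k = (![1, 1, 2] : Fin 3 → ℕ) k := by
  change (univ.filter (fun j : Fin 4 => (![0, 1, 2, 2] : Fin 4 → Fin 3) j = k)).card = _
  revert k
  decide

theorem un_ok : universal.Ok where
  a_ne := by
    change ∀ k, (![1, 1, 1] : Fin 3 → ℤ) k ≠ 0
    decide
  e_pos := by
    change ∀ j : Fin 4, 0 < (![1, 1, 1, 1] : Fin 4 → ℕ) j
    decide
  odd := by
    change ∀ j : Fin 4, (![0, 1, 2, 2] : Fin 4 → Fin 3) j = 2 → Odd ((![1, 1, 1, 1] : Fin 4 → ℕ) j)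
    decide
  not_prop := by
    change ∀ i j : Fin 4, i ≠ j → ((![(1, 0), (0, 1), (-1, 1), (1, 1)] : Fin 4 → ℤ × ℤ) i).1 *
      ((![(1, 0), (0, 1), (-1, 1), (1, 1)] : Fin 4 → ℤ × ℤ) j).2 ≠
      ((![(1, 0), (0, 1), (-1, 1), (1, 1)] : Fin 4 → ℤ × ℤ) j).1 *
      ((![(1, 0), (0, 1), (-1, 1), (1, 1)] : Fin 4 → ℤ × ℤ) i).2
    decide
  sub := by
    intro u v
    rw [un_zero, un_one, un_two]
    ring
  pos := by
    intro k
    rw [un_n]
    revert k
    decide
  even := by
    rw [un_n]
    decide
  le := by
    rw [un_n]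
    exact le_rfl
  lt := by
    intro k hk
    rw [un_n]
    change 2 * (![1, 1, 2] : Fin 3 → ℕ) k < 4
    revert k
    decide

theorem un_universal (A B : ℤ) (hD : 4 * A ^ 3 + 27 * B ^ 2 ≠ 0) (h : HasTwoFour (short A B)) :
    ∃ t : ℚ, universal.Smooth t ∧ ∃ C : WeierstrassCurve.VariableChange ℚ,
      C • short A B = universal.curve t := by
  have hT : Pool.Agent.W307.RT.HasT 4 (Pool.Agent.W307.RT.Sh A B) :=
    Pool.Agent.W307.RT.tors_iff.2 h
  obtain ⟨a, b, hcop, ha, hb, hab, C, hC⟩ := e4_of hD hT
  have hn : ((a : ℚ) / b).num = a :=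
    Rat.num_div_eq_of_coprime hb (Int.isCoprime_iff_gcd_eq_one.1 hcop)
  have hd : ((((a : ℚ) / b).den : ℕ) : ℤ) = b :=
    Rat.den_div_eq_of_coprime hb (Int.isCoprime_iff_gcd_eq_one.1 hcop)
  refine ⟨(a : ℚ) / b, ?_, C, ?_⟩
  · unfold Family.Smooth
    rw [hn, hd]
    intro k
    have h0 : universal.F 0 a b ≠ 0 := by
      rw [un_zero]
      exact ha
    have h1 : universal.F 1 a b ≠ 0 := by
      rw [un_one]
      exact hb.ne'
    have h2 : universal.F 2 a b ≠ 0 := by
      rw [un_two]
      intro h
      apply hab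
      nlinarith
    fin_cases k
    · exact h0
    · exact h1
    · exact h2
  · rw [curve_eq, hn, hd, un_zero, un_one]
    exact hC

/-- **Theorem.** There are numbers `r₀ (S, c, K, A)`, `C (S, c, K, A)` and sets `Z (S, A)` of rational
numbers with the following properties for almost every real `α`, all the families `S` which satisfy
the conditions `Ok`, all natural numbers `c` and all `A ≥ 1`. Let `N (t)` be the sum of the rank and of
the corank of the 2-primary part of the Tate-Shafarevich group of the fibre at `t`. The rational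
numbers `t` with `|α - t| ≤ c / v²`, `v` the denominator, are counted with the weight `1 / log v`.

(1) If `r ≥ r₀ (S, c, ⌊α⌋, A)` then for all large `Q` the sum of the weights of the `t` with `v ≤ Q` and
`N (t) ≥ r` is at most `A ^ (-r) log log Q`.

(2) If `h (v)` tends to infinity with `v` then the sum of the weights of the `t` with `v ≤ Q` and
`N (t) > h (v)` is at most `ε log log Q`, for every `ε > 0` and all large `Q`.

(3) For every `ε > 0` and all large `Q` the sum of the weights of the `t ∈ Z (S, A)` with `v ≤ Q` is at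
most `ε log log Q`, and the sum of `A ^ N (t) / log v` over the `t ∉ Z (S, A)` with `v ≤ Q` is at most
`C (S, c, ⌊α⌋, A) log log Q`.

`Z/2 x Z/4` embeds in the group of the rational points of all the smooth fibres of these families. The
family `universal` satisfies the conditions, and every elliptic curve `y² = x³ + A x + B`, `A`, `B`
integers, such that `Z/2 x Z/4` embeds in its group of rational points is isomorphic over `ℚ` to its
fibre at some rational number `t`. -/
theorem result : (∃ (r₀ : Family → ℕ → ℤ → ℕ → ℕ) (C : Family → ℕ → ℤ → ℕ → ℝ)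
    (Z : Family → ℕ → Set ℚ), ∀ᵐ α : ℝ, ∀ S : Family, S.Ok → ∀ c : ℕ,
    (∀ A : ℕ, 1 ≤ A → ∀ r : ℕ, r₀ S c ⌊α⌋ A ≤ r → ∀ᶠ Q : ℕ in atTop,
      ∑ᶠ t ∈ Good S α c Q {t | r ≤ S.N t}, 1 / Real.log t.den ≤
        Real.log (Real.log Q) / (A : ℝ) ^ r) ∧
    (∀ h : ℕ → ℝ, Tendsto h atTop atTop → ∀ ε : ℝ, 0 < ε → ∀ᶠ Q : ℕ in atTop,
      ∑ᶠ t ∈ Good S α c Q {t | h t.den < S.N t}, 1 / Real.log t.den ≤
        ε * Real.log (Real.log Q)) ∧
    ∀ A : ℕ, 1 ≤ A →
      (∀ ε : ℝ, 0 < ε → ∀ᶠ Q : ℕ in atTop,
        ∑ᶠ t ∈ Good S α c Q (Z S A), 1 / Real.log t.den ≤ ε * Real.log (Real.log Q)) ∧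
      ∀ᶠ Q : ℕ in atTop, ∑ᶠ t ∈ Good S α c Q (Z S A)ᶜ, (A : ℝ) ^ S.N t / Real.log t.den ≤
        C S c ⌊α⌋ A * Real.log (Real.log Q)) ∧
    (∀ S : Family, S.Ok → ∀ t : ℚ, S.Smooth t → HasTwoFour (S.curve t)) ∧
    universal.Ok ∧ ∀ A B : ℤ, 4 * A ^ 3 + 27 * B ^ 2 ≠ 0 → HasTwoFour (short A B) →
      ∃ t : ℚ, universal.Smooth t ∧ ∃ C : WeierstrassCurve.VariableChange ℚ,
        C • short A B = universal.curve t :=
  ⟨approximations, fun _ hS _ ht => torsion hS ht, un_ok, un_universal⟩

end Pool.Agent.Results.MP_9e6228_nt.MetricTwoFour
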