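import Pool.Agent.T6.H39.HS.Curves
import Pool.Agent.T6.H39.HS.FamsL
import Pool.Agent.Results.MP_788af2_nt.DigitSequences

/-!
# The ranks in one-parameter families of elliptic curves with a point of order 8 or 12

Let `m` be `8` or `12` and let `w ≠ 0` be an integer. For an integer `t` let `E_t` be the elliptic curve
`y² = x (x² + (s² - 2 r) x + r²)` with `s = 2 u²`, `r = (v² - u²)²` for `m = 8` and `s = 8 u³ v`,
`r = (v² - u²)³ (v² + 3 u²)` for `m = 12`, where `u = t` and `v = 2 t + w`. It has a rational point of order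
`m`. This is a one-parameter family: a sparse subfamily of all the curves with a point of order `m`,
which are given by pairs of coprime integers `(u, v)`. We show:

* for some `β > 0` the average of `(2 ^ rank) ^ (2 β)` over the `t` coprime to `w` in the interval `(N, N + M]`
  is bounded by a constant times a power of `∏_{p ∣ w} (1 + 1 / p)`, uniformly in `|N|, |w| ≤ M ^ L`;
* for almost every real `θ`, all `w` and all bases `b ≥ 2`, for the exponentially growing integers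
  `t_n = ⌊θ b ^ n⌋` (which are given by the first digits of `θ` in base `b`): the means of `(2 ^ rank) ^ β` and
  of the rank are bounded (logarithmic means over all `n`, arithmetic means along each sequence of `n` which
  at least doubles at each step), the proportion of the `n` with `rank ≥ k` is at most a constant times
  `2 ^ (- β k)`, and the rank is at most a constant times `log n`.

The known averages over one-parameter families (starting files `MP_157626_nt.PencilRankTails`) are for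
families with full rational 2-torsion and squarefree roots.
-/

set_option autoImplicit false

namespace Pool.Agent.Results.MP_9e6228_nt.OneParameterTorsion

open Finset Filter MeasureTheory

/-- the coefficient `s` -/
def s (m : ℕ) (u v : ℤ) : ℤ := if m = 8 then 2 * u ^ 2 else 8 * u ^ 3 * v

/-- the coefficient `r` -/
def r (m : ℕ) (u v : ℤ) : ℤ :=
  if m = 8 then (v ^ 2 - u ^ 2) ^ 2 else (v ^ 2 - u ^ 2) ^ 3 * (v ^ 2 + 3 * u ^ 2)

/-- the curve `y² = x (x² + (s² - 2 r) x + r²)`, `u = t`, `v = w + 2 t` -/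
def E (m : ℕ) (w t : ℤ) : WeierstrassCurve ℚ :=
  ⟨0, (s m t (w + 2 * t) : ℚ) ^ 2 - 2 * (r m t (w + 2 * t) : ℚ), 0, (r m t (w + 2 * t) : ℚ) ^ 2, 0⟩

/-- `t` is coprime to `w` and `E_t` is an elliptic curve -/
def Adm (m : ℕ) (w t : ℤ) : Prop := IsCoprime t w ∧ (E m w t).Δ ≠ 0

open Classical in
/-- the Mordell-Weil rank of `E_t` for an admissible `t`, and zero for the other `t` -/
noncomputable def rank (m : ℕ) (w t : ℤ) : ℕ :=
  if Adm m w t then Module.finrank ℤ (E m w t).toAffine.Point else 0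

open Classical in
/-- `2 ^ rank` for an admissible `t`, and zero for the other `t` -/
noncomputable def size (m : ℕ) (w t : ℤ) : ℝ :=
  if Adm m w t then 2 ^ Module.finrank ℤ (E m w t).toAffine.Point else 0

/-! ### Proof -/

open Pool.Agent.T6.H39.HS
open Pool.Agent.X257.AE (Avg pre)
open Pool.Agent.Results.MP_788af2_nt.DigitSequences (Hyp K logs seqs)

theorem delta (m : ℕ) (w t : ℤ) : (E m w t).Δ ≠ 0 ↔
    s m t (w + 2 * t) ≠ 0 ∧ r m t (w + 2 * t) ≠ 0 ∧
      s m t (w + 2 * t) ^ 2 - 4 * r m t (w + 2 * t) ≠ 0 := by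
  have h : (E m w t).Δ = ((16 * (r m t (w + 2 * t) ^ 4 * (s m t (w + 2 * t) ^ 2 *
      (s m t (w + 2 * t) ^ 2 - 4 * r m t (w + 2 * t)))) : ℤ) : ℚ) := by
    unfold WeierstrassCurve.Δ WeierstrassCurve.b₂ WeierstrassCurve.b₄ WeierstrassCurve.b₆
      WeierstrassCurve.b₈ E
    push_cast
    ring
  rw [h, Int.cast_ne_zero]
  constructor
  · intro h1
    have h2 := right_ne_zero_of_mul h1
    have h3 := right_ne_zero_of_mul h2
    exact ⟨fun h4 => left_ne_zero_of_mul h3 (by rw [h4]; norm_num),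
      fun h4 => left_ne_zero_of_mul h2 (by rw [h4]; norm_num), right_ne_zero_of_mul h3⟩
  · rintro ⟨h1, h2, h3⟩
    exact mul_ne_zero (by norm_num) (mul_ne_zero (pow_ne_zero 4 h2) (mul_ne_zero (pow_ne_zero 2 h1) h3))

/-- points of order `m` -/
theorem pt {m : ℕ} (hm : m = 8 ∨ m = 12) (w t : ℤ) (h : (E m w t).Δ ≠ 0) :
    ∃ P : (E m w t).toAffine.Point, addOrderOf P = m := by
  rw [delta] at h
  obtain ⟨h1, h2, h3⟩ := h
  rcases hm with rfl | rfl
  · exact pt8 (f8 h1 h2 h3)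
  · exact pt12 (f12 h1 h2 h3)

theorem cop {w t : ℤ} (h : IsCoprime t w) : IsCoprime t (w + 2 * t) := by
  rw [mul_comm 2 t]
  exact (IsCoprime.add_mul_left_right_iff).2 h

/-- `∏_{p ∣ w} (1 + 1 / p)` -/
noncomputable def G (w : ℤ) : ℝ := ∏ p ∈ w.natAbs.primeFactors, (1 + 1 / (p : ℝ))

theorem one_le_G (w : ℤ) : 1 ≤ G w := by
  unfold G
  refine one_le_prod fun p _ => ?_
  have : 0 ≤ 1 / (p : ℝ) := by positivity
  linarith

open Classical in
/-- short intervals -/
theorem intervals {m : ℕ} (hm : m = 8 ∨ m = 12) : ∃ β : ℝ, 0 < β ∧ ∀ L : ℕ, ∃ C : ℝ, 0 ≤ C ∧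
    ∀ (M : ℕ) (w N : ℤ), 1 ≤ M → w ≠ 0 → |w| ≤ (M : ℤ) ^ L → |N| ≤ (M : ℤ) ^ L →
      ∑ t ∈ (Ioc N (N + M)).filter (fun t => Adm m w t),
        ((2 : ℝ) ^ Module.finrank ℤ (E m w t).toAffine.Point) ^ (2 * β) ≤ C * M * G w ^ 20 := by
  have hpow : ∀ {X L : ℕ} {U : ℤ}, 1 ≤ X → |U| ≤ (X : ℤ) ^ L → U.natAbs ≤ X ^ (L + 1) := by
    intro X L U hX hU
    rw [Int.abs_eq_natAbs] at hU
    have h1 : U.natAbs ≤ X ^ L := by exact_mod_cast hU
    exact h1.trans (Nat.pow_le_pow_right hX (by omega))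
  rcases hm with rfl | rfl
  · obtain ⟨α, h1, -, h2⟩ := ln8
    refine ⟨α / 2, by positivity, fun L => ?_⟩
    obtain ⟨C, hC, h3⟩ := h2 (L + 1) (by omega)
    refine ⟨C, hC, fun M w N hM hw0 hw hN => ?_⟩
    refine le_trans (sum_le_sum fun t ht => ?_) ((h3 M w N hM hw0 (hpow hM hw) (hpow hM hN) _
      (filter_subset _ _) ?_).trans ?_)
    · obtain ⟨-, a, b⟩ := mem_filter.1 ht
      rw [delta] at b
      have h4 := rk8 (cop a) (f8 b.1 b.2.1 b.2.2)
      rw [show 2 * (α / 2) = α by ring]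
      exact Real.rpow_le_rpow (by positivity) (pow_le_pow_right₀ (by norm_num) h4) h1.le
    · intro t ht
      obtain ⟨-, a, b⟩ := mem_filter.1 ht
      rw [delta] at b
      exact ⟨cop a, f8 b.1 b.2.1 b.2.2⟩
    · exact mul_le_mul_of_nonneg_left (pow_le_pow_right₀ (one_le_G w) (by norm_num))
        (mul_nonneg hC (Nat.cast_nonneg M))
  · obtain ⟨α, h1, -, h2⟩ := ln12
    refine ⟨α / 2, by positivity, fun L => ?_⟩
    obtain ⟨C, hC, h3⟩ := h2 (L + 1) (by omega)
    refine ⟨C, hC, fun M w N hM hw0 hw hN => ?_⟩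
    refine le_trans (sum_le_sum fun t ht => ?_) (h3 M w N hM hw0 (hpow hM hw) (hpow hM hN) _
      (filter_subset _ _) ?_)
    · obtain ⟨-, a, b⟩ := mem_filter.1 ht
      rw [delta] at b
      have h4 := rk12 (cop a) (f12 b.1 b.2.1 b.2.2)
      rw [show 2 * (α / 2) = α by ring]
      exact Real.rpow_le_rpow (by positivity) (pow_le_pow_right₀ (by norm_num) h4) h1.le
    · intro t ht
      obtain ⟨-, a, b⟩ := mem_filter.1 ht
      rw [delta] at b
      exact ⟨cop a, f12 b.1 b.2.1 b.2.2⟩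

theorem size_nonneg (m : ℕ) (w t : ℤ) : 0 ≤ size m w t := by
  unfold size
  split_ifs <;> positivity

open Classical in
/-- the means for one family -/
theorem mean {m : ℕ} {β C : ℝ} (hβ : 0 < β) (hC : 0 ≤ C)
    (h : ∀ (M : ℕ) (w N : ℤ), 1 ≤ M → w ≠ 0 → |w| ≤ (M : ℤ) ^ 3 → |N| ≤ (M : ℤ) ^ 3 →
      ∑ t ∈ (Ioc N (N + M)).filter (fun t => Adm m w t),
        ((2 : ℝ) ^ Module.finrank ℤ (E m w t).toAffine.Point) ^ (2 * β) ≤ C * M * G w ^ 20)
    {w : ℤ} (hw : w ≠ 0) :
    ∃ p : ℝ, 0 < p ∧ Avg (fun t => size m w t ^ (2 * β)) p 1 := by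
  have hsum : ∀ N : ℤ, ∀ M : ℕ, ∑ t ∈ Ioc N (N + M), size m w t ^ (2 * β) =
      ∑ t ∈ (Ioc N (N + M)).filter (fun t => Adm m w t),
        ((2 : ℝ) ^ Module.finrank ℤ (E m w t).toAffine.Point) ^ (2 * β) := by
    intro N M
    rw [sum_filter]
    refine sum_congr rfl fun t _ => ?_
    unfold size
    by_cases ht : Adm m w t
    · rw [if_pos ht, if_pos ht]
    · rw [if_neg ht, if_neg ht]
      exact Real.zero_rpow (by positivity)
  obtain ⟨W, hW⟩ : ∃ W : ℕ, W = w.natAbs := ⟨_, rfl⟩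
  have hW1 : 1 ≤ W := by
    rw [hW]
    exact Int.natAbs_pos.2 hw
  obtain ⟨B, hB⟩ : ∃ B : ℝ, B = ∑ t ∈ Icc (-(2 * (W : ℤ) ^ 3)) (2 * (W : ℤ) ^ 3),
      size m w t ^ (2 * β) := ⟨_, rfl⟩
  have hnn : ∀ t, 0 ≤ size m w t ^ (2 * β) := fun t => Real.rpow_nonneg (size_nonneg m w t) _
  have hB0 : 0 ≤ B := by
    rw [hB]
    exact sum_nonneg fun t _ => hnn t
  have hG : 0 ≤ G w ^ 20 := pow_nonneg (by linarith [one_le_G w]) _
  refine ⟨C * G w ^ 20 + B + 1, by positivity, fun N M hM hN => ?_⟩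
  have hM0 : (1 : ℝ) ≤ M := by exact_mod_cast hM
  by_cases hMW : W ≤ M
  · have h1 : |w| ≤ (M : ℤ) ^ 3 := by
      rw [Int.abs_eq_natAbs, ← hW]
      have h2 : M ≤ M ^ 3 := Nat.le_self_pow (by norm_num) M
      exact_mod_cast hMW.trans h2
    have h2 := h M w N hM hw h1 hN
    change ∑ t ∈ Ioc N (N + M), size m w t ^ (2 * β) ≤ _
    rw [hsum]
    refine h2.trans ?_
    have h3 : 0 ≤ (B + 1) * M := by positivity
    nlinarith
  · push Not at hMW
    have h1 : ∑ t ∈ Ioc N (N + M), size m w t ^ (2 * β) ≤ B := by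
      rw [hB]
      refine sum_le_sum_of_subset_of_nonneg (fun t ht => ?_) fun t _ _ => hnn t
      rw [mem_Ioc] at ht
      have h2 : (M : ℤ) ≤ W := by exact_mod_cast hMW.le
      have h3 : (M : ℤ) ^ 3 ≤ (W : ℤ) ^ 3 := pow_le_pow_left₀ (Int.natCast_nonneg M) h2 3
      have h4 : (W : ℤ) ≤ (W : ℤ) ^ 3 := by
        have : W ≤ W ^ 3 := Nat.le_self_pow (by norm_num) W
        exact_mod_cast this
      have h5 := abs_le.1 hN
      rw [mem_Icc]
      constructor <;> linarith [h5.1, h5.2, ht.1, ht.2]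
    change ∑ t ∈ Ioc N (N + M), size m w t ^ (2 * β) ≤ _
    have h2 : 0 ≤ (C * G w ^ 20 + 1) * M := by positivity
    nlinarith

/-- the hypotheses of the laws of large numbers -/
theorem hyp {m : ℕ} {β p : ℝ} (hβ : 0 < β) (hp : 0 < p) {w : ℤ}
    (h : Avg (fun t => size m w t ^ (2 * β)) p 1) :
    Hyp (fun _ t => size m w t) (fun t => rank m w t)
      (fun k q t => Adm m w t ∧ k + q ≤ rank m w t) β p := by
  classical
  have hle : ∀ t, size m w t ^ β ≤ size m w t ^ (2 * β) := by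
    intro t
    unfold size
    split_ifs with ht
    · apply Real.rpow_le_rpow_of_exponent_le (one_le_pow₀ (by norm_num)) (by linarith)
    · rw [Real.zero_rpow hβ.ne', Real.zero_rpow (by positivity)]
  have hadm : ∀ t, Adm m w t → size m w t = (2 : ℝ) ^ rank m w t := by
    intro t ht
    have e1 : size m w t = (2 : ℝ) ^ Module.finrank ℤ (E m w t).toAffine.Point := if_pos ht
    have e2 : rank m w t = Module.finrank ℤ (E m w t).toAffine.Point := if_pos ht
    rw [e1, e2]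
  refine ⟨hβ, hp, fun _ t => size_nonneg m w t, fun t => ?_, fun j _ => ?_, fun j _ => ?_,
    fun k q => ?_⟩
  · by_cases ht : Adm m w t
    · rw [hadm t ht]
      have : (0 : ℝ) ≤ 1 := zero_le_one
      linarith
    · have e1 : size m w t = 0 := if_neg ht
      have e2 : rank m w t = 0 := if_neg ht
      rw [e1, e2]
      norm_num
  · intro N M hM hN
    exact (sum_le_sum fun t _ => hle t).trans (h N M hM hN)
  · intro N M hM hN
    refine le_trans (le_of_eq (sum_congr rfl fun t _ => ?_)) (h N M hM hN)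
    change (size m w t ^ β) ^ 2 = size m w t ^ (2 * β)
    rw [← Real.rpow_natCast, ← Real.rpow_mul (size_nonneg m w t)]
    congr 1
    push_cast
    ring
  · intro N M hM hN
    have hk : (0 : ℝ) < (2 : ℝ) ^ (β * (k + q)) := by positivity
    rw [div_mul_eq_mul_div, le_div_iff₀ hk, sum_mul]
    refine le_trans (sum_le_sum fun t _ => ?_) (h N M hM hN)
    by_cases ht : Adm m w t ∧ k + q ≤ rank m w t
    · rw [if_pos ht, one_mul]
      refine le_trans ?_ (hle t)
      rw [hadm t ht.1]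
      have e2 : (2 : ℝ) ^ (β * ((k : ℝ) + q)) = ((2 : ℝ) ^ (k + q)) ^ β := by
        rw [mul_comm, Real.rpow_mul (by norm_num)]
        congr 1
        exact_mod_cast Real.rpow_natCast 2 (k + q)
      rw [e2]
      exact Real.rpow_le_rpow (by positivity) (pow_le_pow_right₀ (by norm_num) ht.2) hβ.le
    · rw [if_neg ht, zero_mul]
      exact Real.rpow_nonneg (size_nonneg m w t) _

open Classical in
/-- **Theorem.** Let `m` be `8` or `12`, and let `E_t` (`t`, `w` integers) be the curve above. If `E_t` is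
an elliptic curve it has a rational point of order `m`. There is `β > 0` with the following properties.

(1) For every `L` there is `C` such that for all `M ≥ 1`, `w ≠ 0` and `N` with `|w|, |N| ≤ M ^ L` the sum
of `(2 ^ rank E_t) ^ (2 β)` over the admissible `t ∈ (N, N + M]` is at most
`C M (∏_{p ∣ w} (1 + 1 / p)) ^ 20`.

There are numbers `C(w)` with the following properties; `t` is the integer `⌊θ b ^ n⌋`, and rank and
`2 ^ rank` are replaced by zero if `t` is not admissible.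

(2) For almost every real `θ`, all `w ≠ 0` and all `b ≥ 2`: for all large `x` the sums over `n ≤ x` of
`(2 ^ rank) ^ β / n` and of `rank / n` are at most `C(w) log x`; for every `k` and all large `x` the sum of
`1 / n` over the `n ≤ x` for which `t` is admissible and the rank is at least `k` is at most
`C(w) / 2 ^ (β k) * log x`; and the rank is at most `C(w) log n` for all large `n`.

(3) For every sequence `n_0 ≥ 1`, `n_{i+1} ≥ 2 n_i`, for almost every real `θ`, all `w ≠ 0` and all `b ≥ 2`: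
with `n = n_i`, for all large `J` the means over `i < J` of `(2 ^ rank) ^ β` and of the rank are at most
`C(w)`, and for every `k` the proportion of the `i < J` for which `t` is admissible and the rank is at least
`k` is at most `C(w) / 2 ^ (β k)` for all large `J`. -/
theorem result (m : ℕ) (hm : m = 8 ∨ m = 12) :
    (∀ w t : ℤ, (E m w t).Δ ≠ 0 → ∃ P : (E m w t).toAffine.Point, addOrderOf P = m) ∧
    ∃ β : ℝ, 0 < β ∧
      (∀ L : ℕ, ∃ C : ℝ, ∀ (M : ℕ) (w N : ℤ), 1 ≤ M → w ≠ 0 → |w| ≤ (M : ℤ) ^ L →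
        |N| ≤ (M : ℤ) ^ L →
        ∑ t ∈ (Ioc N (N + M)).filter (fun t => Adm m w t),
          ((2 : ℝ) ^ Module.finrank ℤ (E m w t).toAffine.Point) ^ (2 * β) ≤
            C * M * (∏ p ∈ w.natAbs.primeFactors, (1 + 1 / (p : ℝ))) ^ 20) ∧
      ∃ C : ℤ → ℝ,
        (∀ᵐ θ : ℝ, ∀ w : ℤ, w ≠ 0 → ∀ b : ℕ, 2 ≤ b →
          (∀ᶠ x : ℕ in atTop,
            ∑ n ∈ Icc 1 x, size m w ⌊θ * (b : ℝ) ^ n⌋ ^ β / (n : ℝ) ≤ C w * Real.log x) ∧
          (∀ᶠ x : ℕ in atTop,
            ∑ n ∈ Icc 1 x, (rank m w ⌊θ * (b : ℝ) ^ n⌋ : ℝ) / (n : ℝ) ≤ C w * Real.log x) ∧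
          (∀ k : ℕ, ∀ᶠ x : ℕ in atTop,
            ∑ n ∈ (Icc 1 x).filter (fun n => Adm m w ⌊θ * (b : ℝ) ^ n⌋ ∧
              k ≤ rank m w ⌊θ * (b : ℝ) ^ n⌋), 1 / (n : ℝ) ≤
                C w / (2 : ℝ) ^ (β * k) * Real.log x) ∧
          ∀ᶠ n : ℕ in atTop, (rank m w ⌊θ * (b : ℝ) ^ n⌋ : ℝ) ≤ C w * Real.log n) ∧
        ∀ n : ℕ → ℕ, 1 ≤ n 0 → (∀ i, 2 * n i ≤ n (i + 1)) →
          ∀ᵐ θ : ℝ, ∀ w : ℤ, w ≠ 0 → ∀ b : ℕ, 2 ≤ b →
          (∀ᶠ J : ℕ in atTop,
            ∑ i ∈ range J, size m w ⌊θ * (b : ℝ) ^ n i⌋ ^ β ≤ C w * J) ∧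
          (∀ᶠ J : ℕ in atTop,
            ∑ i ∈ range J, (rank m w ⌊θ * (b : ℝ) ^ n i⌋ : ℝ) ≤ C w * J) ∧
          ∀ k : ℕ, ∀ᶠ J : ℕ in atTop,
            (((range J).filter (fun i => Adm m w ⌊θ * (b : ℝ) ^ n i⌋ ∧
              k ≤ rank m w ⌊θ * (b : ℝ) ^ n i⌋)).card : ℝ) ≤ C w / (2 : ℝ) ^ (β * k) * J := by
  refine ⟨pt hm, ?_⟩
  obtain ⟨β, hβ, hint⟩ := intervals hm
  refine ⟨β, hβ, fun L => ?_, ?_⟩
  · obtain ⟨C, -, hC⟩ := hint L
    exact ⟨C, hC⟩
  obtain ⟨C3, hC3, h3⟩ := hint 3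
  have hp : ∀ w : ℤ, ∃ p : ℝ, 0 < p ∧ (w ≠ 0 → Avg (fun t => size m w t ^ (2 * β)) p 1) := by
    intro w
    by_cases hw : w = 0
    · exact ⟨1, one_pos, fun h => absurd hw h⟩
    · obtain ⟨p, h1, h2⟩ := mean hβ hC3 h3 hw
      exact ⟨p, h1, fun _ => h2⟩
  choose p hp0 hpA using hp
  refine ⟨fun w => K β (p w), ?_, fun n hn0 hn => ?_⟩
  · rw [ae_all_iff]
    intro w
    by_cases hw : w = 0
    · exact Eventually.of_forall fun θ h => absurd hw h
    have hH := hyp hβ (hp0 w) (hpA w hw)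
    filter_upwards [logs hH] with θ hθ _ b hb
    obtain ⟨g1, g2, g3, -, g5⟩ := hθ b hb
    refine ⟨g1 1 le_rfl, g3, fun k => ?_, g5⟩
    have := g2 k 0
    simp only [Nat.cast_zero, add_zero] at this
    exact this
  · rw [ae_all_iff]
    intro w
    by_cases hw : w = 0
    · exact Eventually.of_forall fun θ h => absurd hw h
    have hH := hyp hβ (hp0 w) (hpA w hw)
    filter_upwards [seqs hH n hn0 hn] with θ hθ _ b hb
    obtain ⟨g1, g2, g3⟩ := hθ b hb
    refine ⟨g1 1 le_rfl, g3, fun k => ?_⟩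
    have := g2 k 0
    simp only [Nat.cast_zero, add_zero] at this
    exact this

end Pool.Agent.Results.MP_9e6228_nt.OneParameterTorsion
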