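import Mathlib
import Pool.Agent.T6.H30.TF.Main
import Pool.Agent.T6.H30.TF.Sub8
import Pool.Agent.W307.RT.Tors

/-!
# The tails of the distribution of the ranks of the curves with torsion group `Z/2 x Z/4`

All elliptic curves over `ℚ` with torsion group `Z/2 x Z/4`, ordered by height. There is one set of
curves of density zero such that over all the other curves all the moments of the orders of the
2-Selmer groups are bounded. So the upper density of the curves of rank at least `r` decays faster
than any exponential `A ^ (-r)`. The same holds for all the curves with a subgroup `Z/2 x Z/4`.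

The curve is `y² = x (x + a²) (x + b²)`. In the expansion of the `k`-th moment there are *critical*
unlinked sets of indices: a coisotropic subspace `W` of `F_2^(2k)` of dimension greater than `k` for
the prime factors of `a + b` and of `a - b` and its orthogonal space for those of `a` and of `b`; the
weights of the library (projects DT, JG, BF), which treat families with as many forms in each of the
three classes, do not help there. The new argument is the summation over the assignments of the
primes `p ≡ 3` modulo `4` to the elements of `W`, a Gauss sum of absolute value at most `2 ^ k`.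
-/

set_option autoImplicit false

namespace Pool.Agent.Results.MP_9e6228_nt.TorsionTwoFourTails

open Finset Filter Topology

/-- the curve `y² = x³ + A x + B` over `ℚ` -/
def E (A B : ℤ) : WeierstrassCurve ℚ := ⟨0, 0, 0, (A : ℚ), (B : ℚ)⟩

/-- The pairs `(A, B)` of integers such that `4 A³ + 27 B² ≠ 0`, there is no prime `p` with
`p⁴ ∣ A` and `p⁶ ∣ B`, `Z/2 x Z/4` embeds in the group of the rational points of
`y² = x³ + A x + B`, and the height `max (4 |A|³) (27 B²)` is at most `H`. Every elliptic curve over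
`ℚ` is isomorphic to `E A B` for exactly one pair with the first two properties. -/
def Containing (H : ℕ) : Set (ℤ × ℤ) :=
  {c : ℤ × ℤ | 4 * c.1 ^ 3 + 27 * c.2 ^ 2 ≠ 0 ∧
    (∀ p : ℕ, p.Prime → ¬ ((p : ℤ) ^ 4 ∣ c.1 ∧ (p : ℤ) ^ 6 ∣ c.2)) ∧
    (∃ f : ZMod 2 × ZMod 4 →+ (E c.1 c.2).toAffine.Point, Function.Injective f) ∧
    4 * |c.1| ^ 3 ≤ H ∧ 27 * c.2 ^ 2 ≤ H}

/-- The curves of `Containing H` without a rational point of order 8. By Mazur's theorem these are
the elliptic curves over `ℚ` of height at most `H` with torsion group `Z/2 x Z/4`. -/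
def Exact (H : ℕ) : Set (ℤ × ℤ) :=
  {c : ℤ × ℤ | c ∈ Containing H ∧ ∀ P : (E c.1 c.2).toAffine.Point, addOrderOf P ≠ 8}

/-- the Mordell-Weil rank -/
noncomputable def rank (c : ℤ × ℤ) : ℕ := Module.finrank ℤ (E c.1 c.2).toAffine.Point

/-- The local condition at a completion `K` of `ℚ`: there is a point `(x, y)`, `y ≠ 0`, of
`y² = x³ + A x + B` over `K` such that `(x - e) * d e` is a square for all the integer roots `e` of
`x³ + A x + B`. (Every class of `E(K) / 2 E(K)` contains a point with `y ≠ 0`.) -/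
def Local (K : Type) [Field K] (A B : ℤ) (d : ℤ → ℤ) : Prop :=
  ∃ x y : K, y ≠ 0 ∧ y ^ 2 = x ^ 3 + A * x + B ∧
    ∀ e : ℤ, e ^ 3 + A * e + B = 0 → IsSquare ((x - e) * d e)

/-- The 2-Selmer group of `y² = x³ + A x + B`, a curve with three integer roots. As `E[2]` is the
group of the families of signs with product one indexed by the roots, an element of the 2-Selmer
group is a family of classes of nonzero rational numbers modulo squares indexed by the roots `e`,
given by squarefree integers `d e` (`d e = 1` if `e` is not a root), which over `ℝ` and over `ℚ_[p]`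
for all primes `p` is the family of the classes of `x - e` for a point of the curve. -/
def Sel2 (A B : ℤ) : Set (ℤ → ℤ) :=
  {d | (∀ e, Squarefree (d e)) ∧ (∀ e : ℤ, e ^ 3 + A * e + B ≠ 0 → d e = 1) ∧ Local ℝ A B d ∧
    ∀ (p : ℕ) [Fact p.Prime], Local ℚ_[p] A B d}

/-- the proportion of the curves of `S` among the curves of `F` of height at most `H` -/
noncomputable def proportion (F : ℕ → Set (ℤ × ℤ)) (S : Set (ℤ × ℤ)) (H : ℕ) : ℝ :=
  ((F H ∩ S).ncard : ℝ) / (F H).ncard

/-- the upper density of a set of curves among the curves of `F` -/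
noncomputable def upperDensity (F : ℕ → Set (ℤ × ℤ)) (S : Set (ℤ × ℤ)) : ℝ :=
  limsup (proportion F S) atTop

/-- The statement for the family `F`, `F H` the curves of height at most `H`. The sets `F H` are
finite and the number of their elements tends to infinity with `H`; the 2-Selmer groups of the curves
are finite, of order at least `2 ^ rank`. There is a set `Z` of curves of density zero such that for
every `k` the sum of the `k`-th powers of the orders of the 2-Selmer groups of the curves of `F H`
outside of `Z` is at most `C_k` times the number of the curves of `F H`. For every real number `A`,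
the upper density of the curves of rank at least `r` times `A ^ r` tends to zero for `r → ∞`, and so
does the upper density of the curves whose 2-Selmer group has at least `2 ^ r` elements times
`A ^ r`. -/
def Tails (F : ℕ → Set (ℤ × ℤ)) : Prop :=
  (∀ H : ℕ, (F H).Finite ∧ ∀ c ∈ F H, (Sel2 c.1 c.2).Finite ∧
    2 ^ rank c ≤ (Sel2 c.1 c.2).ncard) ∧
  Tendsto (fun H : ℕ => (F H).ncard) atTop atTop ∧
  (∃ Z : Set (ℤ × ℤ), Tendsto (proportion F Z) atTop (𝓝 0) ∧ ∀ k : ℕ, ∃ C : ℝ, ∀ H : ℕ,
    ∑ᶠ c ∈ F H \ Z, ((Sel2 c.1 c.2).ncard : ℝ) ^ k ≤ C * (F H).ncard) ∧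
  (∀ A : ℝ, Tendsto (fun r : ℕ => A ^ r * upperDensity F {c | r ≤ rank c}) atTop (𝓝 0)) ∧
  ∀ A : ℝ, Tendsto (fun r : ℕ => A ^ r * upperDensity F {c | 2 ^ r ≤ (Sel2 c.1 c.2).ncard}) atTop
    (𝓝 0)

lemma Containing_eq (H : ℕ) : Containing H = (Pool.Agent.W307.RT.Cv 4 H : Set (ℤ × ℤ)) := by
  classical
  ext c
  have h : Pool.Agent.W307.RT.HasT 4 (Pool.Agent.W307.RT.Sh c.1 c.2) ↔
    ∃ f : ZMod 2 × ZMod 4 →+ (E c.1 c.2).toAffine.Point, Function.Injective f :=
    Pool.Agent.W307.RT.tors_iff
  unfold Containing Pool.Agent.W307.RT.Cv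
  rw [Set.mem_ofPred_eq, mem_coe, mem_filter, h, mem_product, mem_Icc, mem_Icc]
  constructor
  · rintro ⟨h1, h2, h3, h4, h5⟩
    refine ⟨⟨?_, ?_⟩, h1, h4, h5, h2, h3⟩
    · rw [← abs_le]
      have h0 := abs_nonneg c.1
      rcases eq_or_lt_of_le h0 with h6 | h6
      · rw [← h6]; positivity
      · have : 1 ≤ |c.1| := h6
        nlinarith [mul_nonneg h0 h0, mul_self_nonneg (|c.1| - 1)]
    · rw [← abs_le]
      have h0 := abs_nonneg c.2
      rw [← sq_abs] at h5
      rcases eq_or_lt_of_le h0 with h6 | h6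
      · rw [← h6]; positivity
      · have : 1 ≤ |c.2| := h6
        nlinarith
  · rintro ⟨-, h1, h4, h5, h2, h3⟩
    exact ⟨h1, h2, h3, h4, h5⟩

lemma Exact_eq (H : ℕ) : Exact H = (Pool.Agent.Y294.ET.G8 H : Set (ℤ × ℤ)) := by
  classical
  ext c
  unfold Exact Pool.Agent.Y294.ET.G8
  rw [Set.mem_ofPred_eq, mem_coe, mem_filter, Containing_eq, mem_coe]
  rfl

/-- the statement from the moments -/
lemma tails_of {F : ℕ → Set (ℤ × ℤ)} {G : ℕ → Finset (ℤ × ℤ)} (hF : ∀ H, F H = (G H : Set (ℤ × ℤ)))
    (hsub : ∀ H, G H ⊆ Pool.Agent.W307.RT.Cv 4 H)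
    (htend : Tendsto (fun H : ℕ => (G H).card) atTop atTop)
    (hE : Pool.Agent.TH344.GT.EXC G (fun c => (Pool.Agent.W307.SE.SelR c.1 c.2).ncard)) :
    Tails F := by
  classical
  have hfin : ∀ H, ∀ c ∈ G H, (Sel2 c.1 c.2).Finite ∧ 2 ^ rank c ≤ (Sel2 c.1 c.2).ncard := by
    intro H c hc
    obtain ⟨h1, -, h2⟩ := Pool.Agent.T6.H30.TF.sel4 (hsub H hc)
    exact ⟨h1, h2⟩
  have hcard : ∀ H, (F H).ncard = (G H).card := fun H => by rw [hF, Set.ncard_coe_finset]
  have hpr : ∀ S, proportion F S = Pool.Agent.TH344.GT.pr G S := by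
    intro S
    funext H
    unfold proportion Pool.Agent.TH344.GT.pr
    rw [hF, Set.ncard_coe_finset]
  have hud : ∀ S, upperDensity F S = Pool.Agent.TH344.GT.ud G S := by
    intro S
    unfold upperDensity Pool.Agent.TH344.GT.ud
    rw [hpr]
  have hE' : Pool.Agent.TH344.GT.EXC G (fun c => (Sel2 c.1 c.2).ncard) := hE
  obtain ⟨Z, hZ1, hZ2⟩ := hE
  refine ⟨fun H => ?_, ?_, ⟨Z, ?_, fun k => ?_⟩, fun A => ?_, fun A => ?_⟩
  · rw [hF]
    exact ⟨finite_toSet _, fun c hc => hfin H c (mem_coe.1 hc)⟩
  · simp only [hcard]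
    exact htend
  · rw [hpr]
    exact Pool.Agent.TH344.GT.tendsto_of_eps _ hZ1
  · obtain ⟨C, hC⟩ := hZ2 k
    refine ⟨C, fun H => ?_⟩
    have h1 : F H \ Z = (((G H).filter (fun c => c ∉ Z) : Finset (ℤ × ℤ)) : Set (ℤ × ℤ)) := by
      rw [hF]
      ext c
      simp
    rw [h1, finsum_mem_coe_finset, hcard]
    exact hC H
  · simp only [hud]
    apply Pool.Agent.TH344.GT.tail _ hE' 1
    intro r H c hc hr
    rw [pow_one]
    exact (Nat.pow_le_pow_right (by norm_num) hr).trans (hfin H c hc).2
  · simp only [hud]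
    apply Pool.Agent.TH344.GT.tail _ hE' 1
    intro r H c hc hr
    rw [pow_one]
    exact hr

/-- **Theorem.** The statement `Tails` holds for the elliptic curves over `ℚ` with torsion group
`Z/2 x Z/4` and for the elliptic curves over `ℚ` with a subgroup `Z/2 x Z/4` of rational points. -/
theorem result : Tails Exact ∧ Tails Containing :=
  ⟨tails_of Exact_eq Pool.Agent.Y294.ET.G8_sub Pool.Agent.T6.H30.TF.tend8
    (Pool.Agent.T6.H30.TF.exc8 Pool.Agent.T6.H30.TF.exc4),
    tails_of Containing_eq (fun _ => subset_rfl)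
      (Pool.Agent.W307.RT.tendsto_of_low Pool.Agent.W29.RT.low4) Pool.Agent.T6.H30.TF.exc4⟩

end Pool.Agent.Results.MP_9e6228_nt.TorsionTwoFourTails
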